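import Pool.Agent.Helper9.PP.Stm
import Pool.Agent.Helper9.FJ.Basic
import Pool.Agent.Helper90.FJ.Gen

/-!
Package GROW of the project PP (helper9, MP_e09b14_ag).
-/

set_option autoImplicit false
set_option linter.unusedSectionVars false

namespace Pool.Agent.Helper43.PP

open FF Module MvPolynomial Pool.Agent.Helper9.FJ Pool.Agent.Helper9.PP Pool.Agent.Helper90.FJ

variable {K : Type} [Field K] [Algebra ℂ K] [IsFF ℂ K] {I : Type} [Fintype I] [DecidableEq I]

/-- scaling of the variables -/
noncomputable def sc (t : K) : MvPolynomial I K →ₐ[K] MvPolynomial I K :=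
  aeval (fun x => C t * X x)

theorem coeff_sc (t : K) (f : MvPolynomial I K) (β : I →₀ ℕ) :
    coeff β (sc t f) = t ^ (∑ x, β x) * coeff β f := by
  induction f using MvPolynomial.induction_on' with
  | monomial γ c =>
    have h1 : sc t (monomial γ c) = monomial γ (t ^ (∑ x, γ x) * c) := by
      unfold sc
      rw [aeval_monomial, Finsupp.prod_fintype _ _ (fun _ => pow_zero _)]
      simp_rw [mul_pow]
      rw [Finset.prod_mul_distrib, Finset.prod_pow_eq_pow_sum, ← map_pow,
        MvPolynomial.algebraMap_eq, ← mul_assoc, ← C_mul, mul_comm c, monomial_eq,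
        Finsupp.prod_fintype _ _ (fun _ => pow_zero _)]
    rw [h1, coeff_monomial, coeff_monomial]
    split_ifs with h
    · rw [h]
    · rw [mul_zero]
  | add p q hp hq => rw [map_add, coeff_add, coeff_add, hp, hq, mul_add]

/-- lifts with a prescribed reduction -/
theorem exists_lift' (P : Place ℂ K) (f : MvPolynomial I K) (g : MvPolynomial I P.O)
    (h : ∀ β, Ge P 1 (coeff β (f - MvPolynomial.map (io P) g))) :
    ∃ F : MvPolynomial I P.O, MvPolynomial.map (io P) F = f ∧
      MvPolynomial.map (theta P) F = MvPolynomial.map (theta P) g := by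
  obtain ⟨D, hD⟩ := exists_lift P (f := f - MvPolynomial.map (io P) g)
    (fun β => (h β).mono (by norm_num))
  refine ⟨D + g, ?_, ?_⟩
  · rw [map_add, hD, sub_add_cancel]
  · rw [map_add]
    have : MvPolynomial.map (theta P) D = 0 := by
      ext β
      rw [coeff_map, coeff_zero, theta_eq_zero, ← coeff_map, hD]
      exact h β
    rw [this, zero_add]

theorem map_io_injective (P : Place ℂ K) :
    Function.Injective (MvPolynomial.map (σ := I) (io P)) :=
  MvPolynomial.map_injective _ (io_injective P)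

section

variable {l : ℕ} {R : Fin l → ℕ}

theorem dh_map (P : Place ℂ K) (F : MvPolynomial (Vr R) P.O) :
    dh (MvPolynomial.map (io P) F) = MvPolynomial.map (io P)
      (aeval (fun x : Vr R => if (x.2 : ℕ) = 0 then 1 else X x) F) := by
  unfold dh
  induction F using MvPolynomial.induction_on with
  | C a => simp
  | add p q hp hq => rw [map_add, map_add, map_add, map_add, hp, hq]
  | mul_X p x hp =>
    rw [map_mul, map_mul, map_mul, map_mul, hp]
    congr 1
    rw [map_X, aeval_X, aeval_X]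
    split_ifs
    · rw [map_one]
    · rw [map_X]

/-- `dh` preserves integrality -/
theorem dh_int (P : Place ℂ K) {f : MvPolynomial (Vr R) K} (hf : ∀ α, Ge P 0 (coeff α f))
    (α : Vr R →₀ ℕ) : Ge P 0 (coeff α (dh f)) := by
  obtain ⟨F, rfl⟩ := exists_lift P hf
  rw [dh_map, coeff_map]
  exact (coeff α (aeval (fun x : Vr R => if (x.2 : ℕ) = 0 then 1 else X x) F) : P.O).2

/-- `dh` removes the variables with the index `0` -/
theorem dh_zero (f : MvPolynomial (Vr R) K) {β : Vr R →₀ ℕ} {x : Vr R} (hx : (x.2 : ℕ) = 0)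
    (hβ : β x ≠ 0) : coeff β (dh f) = 0 := by
  induction f using MvPolynomial.induction_on generalizing β with
  | C a =>
    unfold dh
    rw [← MvPolynomial.algebraMap_eq, AlgHom.commutes, MvPolynomial.algebraMap_eq, coeff_C,
      if_neg]
    rintro rfl
    exact hβ rfl
  | add p q hp hq => rw [map_add, coeff_add, hp hβ, hq hβ, add_zero]
  | mul_X p y hp =>
    rw [map_mul]
    have h1 : dh (X y : MvPolynomial (Vr R) K) = if (y.2 : ℕ) = 0 then 1 else X y := by
      unfold dh
      rw [aeval_X]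
    rw [h1]
    split_ifs with hy
    · rw [mul_one]
      exact hp hβ
    · rw [coeff_mul_X']
      split_ifs with hs
      · apply hp
        have hxy : y ≠ x := by
          rintro rfl
          exact hy hx
        rw [Finsupp.tsub_apply, Finsupp.single_eq_of_ne' hxy]
        exact hβ
      · rfl

theorem ge_sc (P : Place ℂ K) {t : K} (ht : P.ord t = 1) {c : K} (hc : Ge P 0 c) {n m : ℕ}
    (hn : m ≤ n) : Ge P m (t ^ n * c) := by
  have h1 : Ge P (n * 1) (t ^ n) := Ge.pow (Or.inr (by rw [ht])) n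
  have h2 := h1.mul hc
  exact h2.mono (by omega)

theorem ge_sc' (P : Place ℂ K) {t : K} (ht : P.ord t = 1) {c : K} {m : ℤ} (hc : Ge P (m + 1) c) :
    Ge P m (t⁻¹ * c) := by
  have h1 : Ge P (-1) (t⁻¹) := Or.inr (by rw [P.ord_inv, ht])
  exact (h1.mul hc).mono (by omega)

theorem sum_eq_one {β : I →₀ ℕ} (h : ∑ x, β x = 1) : ∃ x, β = Finsupp.single x 1 := by
  obtain ⟨x, hx⟩ : ∃ x, β x ≠ 0 := by
    by_contra hc
    push Not at hc
    simp [hc] at h
  refine ⟨x, ?_⟩
  rw [← Finset.add_sum_erase _ _ (Finset.mem_univ x)] at h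
  have h2 : β x = 1 := by omega
  have h3 : ∑ y ∈ Finset.univ.erase x, β y = 0 := by omega
  rw [Finset.sum_eq_zero_iff] at h3
  ext y
  by_cases hy : y = x
  · rw [hy, h2, Finsupp.single_eq_same]
  · rw [h3 y (Finset.mem_erase.2 ⟨hy, Finset.mem_univ _⟩), Finsupp.single_eq_of_ne hy]

theorem sum_eq_zero {β : I →₀ ℕ} (h : ∑ x, β x = 0) : β = 0 := by
  rw [Finset.sum_eq_zero_iff] at h
  ext y
  exact h y (Finset.mem_univ _)

/-- the reductions of the scaled jets -/
theorem red_v0 (P : Place ℂ K) {t : K} (ht : P.ord t = 1) {v0 : MvPolynomial (Vr R) K}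
    (h0 : ∀ α, Ge P 0 (coeff α v0)) (h : Ge P 1 (coeff 0 (dh v0) - 1)) (β : Vr R →₀ ℕ) :
    Ge P 1 (coeff β (sc t (dh v0) - MvPolynomial.map (io P) 1)) := by
  rw [map_one, coeff_sub, coeff_sc]
  rcases Nat.eq_zero_or_pos (∑ x, β x) with hβ | hβ
  · rw [sum_eq_zero hβ]
    simpa using h
  · have h1 : β ≠ 0 := by
      rintro rfl
      simp at hβ
    rw [coeff_one, if_neg h1.symm, sub_zero]
    exact_mod_cast ge_sc P ht (dh_int P h0 β) (m := 1) hβ

theorem red_vk (P : Place ℂ K) {t : K} (ht : P.ord t = 1) {v : MvPolynomial (Vr R) K}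
    (h0 : ∀ α, Ge P 0 (coeff α v)) {a0 : ℂ} {a1 : Vr R → ℂ} (ha : ∀ x : Vr R, (x.2 : ℕ) = 0 → a1 x = 0)
    (h : Ge P 2 (coeff 0 (dh v) - t * algebraMap ℂ K a0))
    (h1 : ∀ x : Vr R, (x.2 : ℕ) ≠ 0 →
      Ge P 1 (coeff (Finsupp.single x 1) (dh v) - algebraMap ℂ K (a1 x))) (β : Vr R →₀ ℕ) :
    Ge P 1 (coeff β (C t⁻¹ * sc t (dh v) - MvPolynomial.map (io P)
      (C (cst P a0) + ∑ x, C (cst P (a1 x)) * X x))) := by
  have htne : t ≠ 0 := by
    rintro rfl
    rw [P.ord_zero] at ht
    omega
  rw [map_add, map_C, map_sum, io_cst, coeff_sub, coeff_C_mul, coeff_sc, coeff_add, coeff_sum]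
  simp_rw [map_mul, map_C, map_X, io_cst, coeff_C_mul]
  rcases Nat.lt_or_ge (∑ x, β x) 1 with hβ | hβ
  · rw [sum_eq_zero (β := β) (by omega)]
    simp only [coeff_zero_X, mul_zero, Finset.sum_const_zero, add_zero, Finsupp.coe_zero,
      Pi.zero_apply, pow_zero, one_mul, coeff_zero_C]
    have : t⁻¹ * coeff 0 (dh v) - algebraMap ℂ K a0 =
        t⁻¹ * (coeff 0 (dh v) - t * algebraMap ℂ K a0) := by
      field_simp
    rw [this]
    exact ge_sc' P ht h
  rcases Nat.lt_or_ge (∑ x, β x) 2 with hβ2 | hβ2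
  · obtain ⟨x, rfl⟩ := sum_eq_one (β := β) (by omega)
    have e1 : ∑ y, (Finsupp.single x 1 : Vr R →₀ ℕ) y = 1 := by omega
    have e2 : ∑ y, algebraMap ℂ K (a1 y) * coeff (Finsupp.single x 1) (X y : MvPolynomial (Vr R) K)
        = algebraMap ℂ K (a1 x) := by
      rw [Finset.sum_eq_single x]
      · rw [coeff_X, if_pos rfl, mul_one]
      · intro y _ hy
        rw [coeff_X, if_neg, mul_zero]
        intro h
        exact hy (Finsupp.single_left_injective one_ne_zero h)
      · intro h; exact absurd (Finset.mem_univ _) h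
    have e3 : coeff (Finsupp.single x 1) (C (algebraMap ℂ K a0) : MvPolynomial (Vr R) K) = 0 := by
      rw [coeff_C, if_neg]
      intro h
      have := DFunLike.congr_fun h x
      simp at this
    rw [e1, e2, e3, pow_one, zero_add, ← mul_assoc, inv_mul_cancel₀ htne, one_mul]
    by_cases hx : (x.2 : ℕ) = 0
    · rw [dh_zero v hx (by simp), ha x hx, map_zero, sub_zero]
      exact Or.inl rfl
    · exact h1 x hx
  · have e2 : ∑ y, algebraMap ℂ K (a1 y) * coeff β (X y : MvPolynomial (Vr R) K) = 0 := by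
      refine Finset.sum_eq_zero fun y _ => ?_
      rw [coeff_X, if_neg, mul_zero]
      rintro rfl
      have : ∑ x, (Finsupp.single y 1 : Vr R →₀ ℕ) x = 1 := by
        simp [Finsupp.single_apply]
      omega
    have e3 : coeff β (C (algebraMap ℂ K a0) : MvPolynomial (Vr R) K) = 0 := by
      rw [coeff_C, if_neg]
      rintro rfl
      simp at hβ2
    rw [e2, e3, add_zero, sub_zero]
    apply ge_sc' P ht
    exact_mod_cast ge_sc P ht (dh_int P h0 β) (m := 2) hβ2

/-- the products -/
def pr {n A : Type} [Fintype n] [CommRing A] (B : ℕ) (v0 : A) (v : n → A)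
    (α : n → Fin (B + 1)) : A :=
  ∏ k, (v k ^ (α k : ℕ) * v0 ^ (B - α k))

theorem map_pr {n A A' : Type} [Fintype n] [CommRing A] [CommRing A'] {F : Type}
    [FunLike F A A'] [RingHomClass F A A'] (φ : F) (B : ℕ) (v0 : A) (v : n → A)
    (α : n → Fin (B + 1)) : φ (pr B v0 v α) = pr B (φ v0) (fun k => φ (v k)) α := by
  unfold pr
  rw [map_prod]
  simp_rw [map_mul, map_pow]

theorem pr_mul {n A : Type} [Fintype n] [CommRing A] (B : ℕ) (v0 : A) (v : n → A) (a : A)
    (α : n → Fin (B + 1)) :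
    pr B v0 (fun k => a * v k) α = a ^ (∑ k, (α k : ℕ)) * pr B v0 v α := by
  unfold pr
  simp_rw [mul_pow, mul_assoc]
  rw [Finset.prod_mul_distrib, Finset.prod_pow_eq_pow_sum]

/-- the exponent of the monomial of a product -/
noncomputable def expo {B : ℕ} (α : Option (Fr R) → Fin (B + 1)) : Vr R →₀ ℕ :=
  ∑ y : Fr R, Finsupp.single y.1 (α (some y) : ℕ)

theorem expo_apply {B : ℕ} (α : Option (Fr R) → Fin (B + 1)) (y : Fr R) :
    expo α y.1 = α (some y) := by
  unfold expo
  rw [Finsupp.finsetSum_apply, Finset.sum_eq_single y]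
  · rw [Finsupp.single_eq_same]
  · intro z _ hz
    rw [Finsupp.single_eq_of_ne]
    intro h
    exact hz (Subtype.ext h).symm
  · intro h; exact absurd (Finset.mem_univ _) h

theorem pr_X {B : ℕ} (α : Option (Fr R) → Fin (B + 1)) :
    pr B (1 : MvPolynomial (Vr R) ℂ) (fun k => k.elim 1 fun y => X y.1) α =
      monomial (expo α) 1 := by
  unfold pr expo
  rw [Fintype.prod_option, monomial_sum_one]
  simp only [Option.elim_none, one_pow, one_mul, mul_one, Option.elim_some]
  exact Finset.prod_congr rfl fun y _ => X_pow_eq_monomial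

/-- the products of sections with the jets of the coordinates are linearly independent -/
theorem indep (P : Place ℂ K) {t : K} (ht : P.ord t = 1) (B : ℕ) {v0 : MvPolynomial (Vr R) K}
    {v : Option (Fr R) → MvPolynomial (Vr R) K} (h0 : ∀ α, Ge P 0 (coeff α v0))
    (hk : ∀ k α, Ge P 0 (coeff α (v k))) (hJ : JET P t v0 v)
    (c : (Option (Fr R) → Fin (B + 1)) → ℂ)
    (hc : ∑ α, C (algebraMap ℂ K (c α)) * pr B v0 v α = 0) : c = 0 := by
  have htne : t ≠ 0 := by
    rintro rfl
    rw [P.ord_zero] at ht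
    omega
  obtain ⟨W0, hW0, hW0'⟩ := exists_lift' P _ 1 (red_v0 P ht h0 hJ.1)
  have hW : ∀ k : Option (Fr R), ∃ W : MvPolynomial (Vr R) P.O,
      MvPolynomial.map (io P) W = C t⁻¹ * sc t (dh (v k)) ∧
      MvPolynomial.map (theta P) W = k.elim 1 fun y => X y.1 := by
    intro k
    cases k with
    | none =>
      obtain ⟨W, hW1, hW2⟩ := exists_lift' P _ _ (red_vk P ht (hk none) (a0 := 1) (a1 := 0)
        (fun _ _ => rfl) (by rw [map_one, mul_one]; exact hJ.2.1.1) (fun x hx => by
          rw [Pi.zero_apply, map_zero, sub_zero]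
          exact hJ.2.1.2 ⟨x, hx⟩))
      refine ⟨W, hW1, hW2.trans ?_⟩
      simp
    | some y =>
      obtain ⟨W, hW1, hW2⟩ := exists_lift' P _ _ (red_vk P ht (hk (some y)) (a0 := 0)
        (a1 := Pi.single y.1 1)
        (fun x hx => by
          rw [Pi.single_apply, if_neg]
          rintro rfl
          exact y.2 hx) (by rw [map_zero, mul_zero, sub_zero]; exact (hJ.2.2 y).1)
        (fun x hx => by
          have := (hJ.2.2 y).2 ⟨x, hx⟩
          rw [Pi.single_apply]
          convert this using 2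
          by_cases hxy : x = y.1
          · rw [if_pos hxy, if_pos (Subtype.ext hxy), map_one]
          · rw [if_neg hxy, if_neg (fun h => hxy (congrArg Subtype.val h)), map_zero]))
      refine ⟨W, hW1, hW2.trans ?_⟩
      rw [map_add, map_C, map_sum, theta_cst, map_zero, zero_add, Finset.sum_eq_single y.1]
      · rw [map_mul, map_C, map_X, theta_cst, Pi.single_eq_same, map_one, one_mul]
        rfl
      · intro x _ hx
        rw [map_mul, map_C, theta_cst, Pi.single_eq_of_ne hx, map_zero, zero_mul]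
      · intro h; exact absurd (Finset.mem_univ _) h
  choose W hW1 hW2 using hW
  by_contra hcne
  obtain ⟨α1, hα1⟩ : ∃ α, c α ≠ 0 := by
    by_contra h
    push Not at h
    exact hcne (funext h)
  obtain ⟨α0, hα0, hmin⟩ := Finset.exists_min_image (Finset.univ.filter fun α => c α ≠ 0)
    (fun α => ∑ k, (α k : ℕ)) ⟨α1, Finset.mem_filter.2 ⟨Finset.mem_univ _, hα1⟩⟩
  set m := ∑ k, (α0 k : ℕ) with hm
  have hα0' : c α0 ≠ 0 := (Finset.mem_filter.1 hα0).2
  have hmin' : ∀ α, c α ≠ 0 → m ≤ ∑ k, (α k : ℕ) := fun α h =>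
    hmin α (Finset.mem_filter.2 ⟨Finset.mem_univ _, h⟩)
  let t' : P.O := ⟨t, Or.inr (by rw [ht]; norm_num)⟩
  have hiot : io P t' = t := rfl
  have htht : theta P t' = 0 := (theta_eq_zero P t').2 (Or.inr (by rw [hiot, ht]))
  have ht' : t' ≠ 0 := by
    intro h
    apply htne
    rw [← hiot, h, map_zero]
  have e3 : ∑ α, C (cst P (c α)) * (C t' ^ (∑ k, (α k : ℕ)) * pr B W0 W α) = 0 := by
    apply map_io_injective P
    rw [map_zero, map_sum, ← map_zero ((sc t).comp dh : MvPolynomial (Vr R) K →ₐ[K] _), ← hc,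
      map_sum]
    refine Finset.sum_congr rfl fun α _ => ?_
    rw [map_mul, map_mul, map_mul, map_C, io_cst, map_pow, map_C, hiot, map_pr, map_pr, hW0]
    simp_rw [hW1]
    rw [← pr_mul]
    congr 1
    · rw [← MvPolynomial.algebraMap_eq, AlgHom.commutes]
    · simp only [← mul_assoc, ← C_mul, mul_inv_cancel₀ htne, map_one, one_mul]
      rfl
  have e5 : ∑ α, C (cst P (c α)) * (C t' ^ ((∑ k, (α k : ℕ)) - m) * pr B W0 W α) = 0 := by
    have h1 : (C t' : MvPolynomial (Vr R) P.O) ^ m ≠ 0 := pow_ne_zero _ (by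
      rw [Ne, C_eq_zero]
      exact ht')
    apply (mul_eq_zero_iff_left h1).1
    rw [← e3, Finset.mul_sum]
    refine Finset.sum_congr rfl fun α _ => ?_
    by_cases hcα : c α = 0
    · rw [hcα, map_zero, map_zero, zero_mul, zero_mul, mul_zero]
    · obtain ⟨d, hd⟩ := Nat.exists_eq_add_of_le (hmin' α hcα)
      rw [hd, Nat.add_sub_cancel_left, pow_add]
      ring
  have e6 := congrArg (fun F => coeff (expo α0) (MvPolynomial.map (theta P) F)) e5
  simp only [map_zero, coeff_zero, map_sum, coeff_sum] at e6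
  apply hα0'
  rw [← e6]
  symm
  rw [Finset.sum_eq_single α0]
  · rw [map_mul, map_mul, map_C, theta_cst, map_pow, map_C, htht, map_pr, hW0', map_one]
    simp_rw [hW2]
    rw [pr_X, ← hm, Nat.sub_self, pow_zero, one_mul, coeff_C_mul, coeff_monomial, if_pos rfl,
      mul_one]
  · intro α _ hα
    rw [map_mul, map_mul, map_C, theta_cst, map_pow, map_C, htht, map_pr, hW0', map_one]
    simp_rw [hW2]
    rw [pr_X, coeff_C_mul]
    by_cases hcα : c α = 0
    · rw [hcα, zero_mul]
    rcases (hmin' α hcα).lt_or_eq with hlt | heq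
    · rw [map_zero, zero_pow (by omega), zero_mul, coeff_zero, mul_zero]
    · rw [← heq, Nat.sub_self, pow_zero, one_mul, coeff_monomial, if_neg, mul_zero]
      intro h
      apply hα
      have h1 : ∀ y, α (some y) = α0 (some y) := fun y => by
        apply Fin.ext
        rw [← expo_apply, ← expo_apply, h]
      funext k
      cases k with
      | some y => exact h1 y
      | none =>
        rw [hm, Fintype.sum_option, Fintype.sum_option] at heq
        simp_rw [h1] at heq
        apply Fin.ext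
        omega
  · intro h; exact absurd (Finset.mem_univ _) h

/-- the exponents of a given multidegree -/
def Ex (R : Fin l → ℕ) (b : Fin l → ℕ) : Type :=
  {β : Vr R →₀ ℕ // ∀ j, ∑ i, β ⟨j, i⟩ = b j}

/-- the restriction to the free variables -/
def rest {b : Fin l → ℕ} {D : ℕ} (hD : ∀ j, b j ≤ D) (β : Ex R b) : Fr R → Fin (D + 1) :=
  fun x => ⟨β.1 x.1, by
    have h1 := β.2 x.1.1
    have h2 := Finset.single_le_sum (f := fun i => β.1 ⟨x.1.1, i⟩) (fun _ _ => Nat.zero_le _)
      (Finset.mem_univ x.1.2)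
    have h3 := hD x.1.1
    have h4 : β.1 x.1 ≤ ∑ i, β.1 ⟨x.1.1, i⟩ := h2
    omega⟩

theorem rest_injective {b : Fin l → ℕ} {D : ℕ} (hD : ∀ j, b j ≤ D) :
    Function.Injective (rest (R := R) hD) := by
  intro β β' h
  apply Subtype.ext
  have h1 : ∀ x : Vr R, (x.2 : ℕ) ≠ 0 → β.1 x = β'.1 x := fun x hx =>
    congrArg Fin.val (congrFun h ⟨x, hx⟩)
  ext ⟨j, i⟩
  by_cases hi : (i : ℕ) = 0
  · have h2 := (β.2 j).trans (β'.2 j).symm
    rw [← Finset.add_sum_erase _ _ (Finset.mem_univ i),
      ← Finset.add_sum_erase _ _ (Finset.mem_univ i)] at h2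
    have h3 : ∑ x ∈ Finset.univ.erase i, β.1 ⟨j, x⟩ = ∑ x ∈ Finset.univ.erase i, β'.1 ⟨j, x⟩ := by
      refine Finset.sum_congr rfl fun x hx => h1 ⟨j, x⟩ fun h0 => ?_
      exact (Finset.mem_erase.1 hx).1 (Fin.ext (h0.trans hi.symm))
    rw [h3] at h2
    exact Nat.add_right_cancel h2
  · exact h1 ⟨j, i⟩ hi

instance {b : Fin l → ℕ} : Finite (Ex R b) :=
  Finite.of_injective _ (rest_injective (R := R) (b := b) (D := ∑ j, b j)
    fun j => Finset.single_le_sum (f := b) (fun _ _ => Nat.zero_le _) (Finset.mem_univ j))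

theorem card_Ex {b : Fin l → ℕ} {D : ℕ} (hD : ∀ j, b j ≤ D) :
    Nat.card (Ex R b) ≤ (D + 1) ^ Fintype.card (Fr R) := by
  have := Nat.card_le_card_of_injective _ (rest_injective (R := R) hD)
  simpa [Nat.card_eq_fintype_card] using this

/-- the growth inequality -/
theorem card_lt (n A : ℕ) : ∃ B : ℕ, 0 < B ∧ ((n + 1) * B * A + 1) ^ n < (B + 1) ^ (n + 1) := by
  refine ⟨((n + 1) * A + 1) ^ n, Nat.pos_of_ne_zero (pow_ne_zero _ (by omega)), ?_⟩
  set B := ((n + 1) * A + 1) ^ n with hB
  calc ((n + 1) * B * A + 1) ^ n ≤ (((n + 1) * A + 1) * (B + 1)) ^ n := by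
        apply Nat.pow_le_pow_left
        nlinarith [Nat.zero_le ((n + 1) * A), Nat.zero_le B]
    _ = B * (B + 1) ^ n := by rw [mul_pow, ← hB]
    _ < (B + 1) * (B + 1) ^ n :=
        Nat.mul_lt_mul_of_pos_right (Nat.lt_succ_self B) (Nat.pos_of_ne_zero (pow_ne_zero _ (by omega)))
    _ = (B + 1) ^ (n + 1) := by rw [pow_succ, mul_comm]

/-- weights of the variables -/
def wt (R : Fin l → ℕ) : Vr R → Fin l → ℕ := fun x => Pi.single x.1 1

theorem weight_wt (β : Vr R →₀ ℕ) (j : Fin l) : Finsupp.weight (wt R) β j = ∑ i, β ⟨j, i⟩ := by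
  rw [Finsupp.weight_apply, Finsupp.sum_fintype _ _ (by simp), Finset.sum_apply,
    Fintype.sum_sigma, Finset.sum_eq_single j]
  · refine Finset.sum_congr rfl fun i _ => ?_
    simp [wt]
  · intro j' _ hj
    refine Finset.sum_eq_zero fun i _ => ?_
    simp [wt, Pi.single_eq_of_ne (Ne.symm hj)]
  · intro h; exact absurd (Finset.mem_univ _) h

theorem isMh_iff {a : Fin l → ℕ} {s : MvPolynomial (Vr R) K} :
    IsMh a s ↔ IsWeightedHomogeneous (wt R) s a := by
  constructor
  · intro h β hβ
    funext j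
    rw [weight_wt, h β hβ j]
  · intro h β hβ j
    rw [← weight_wt, h hβ]

theorem pr_mh {a : Fin l → ℕ} {n : Type} [Fintype n] {B : ℕ} {v0 : MvPolynomial (Vr R) K}
    {v : n → MvPolynomial (Vr R) K} (h0 : IsMh a v0) (hv : ∀ k, IsMh a (v k))
    (α : n → Fin (B + 1)) : IsMh ((Fintype.card n * B) • a) (pr B v0 v α) := by
  rw [isMh_iff]
  have h1 : ∀ k, IsWeightedHomogeneous (wt R) (v k ^ (α k : ℕ) * v0 ^ (B - α k)) (B • a) := by
    intro k
    have h2 := ((isMh_iff.1 (hv k)).pow (α k)).mul ((isMh_iff.1 h0).pow (B - α k))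
    rw [← add_smul, Nat.add_sub_cancel' (Nat.lt_succ_iff.1 (α k).2)] at h2
    exact h2
  have h3 := IsWeightedHomogeneous.prod Finset.univ _ _ fun k _ => h1 k
  rw [Finset.sum_const, Finset.card_univ, smul_smul] at h3
  exact h3

theorem pr_word {n A : Type} [Fintype n] [CommRing A] (B : ℕ) (v0 : A) (v : n → A)
    (α : n → Fin (B + 1)) : ∃ w : Fin (Fintype.card n * B) → Option n,
      pr B v0 v α = ∏ i, (w i).elim v0 v := by
  let e : Fin (Fintype.card n * B) ≃ n × Fin B :=
    finProdFinEquiv.symm.trans (Equiv.prodCongr (Fintype.equivFin n).symm (Equiv.refl _))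
  refine ⟨fun i => if ((e i).2 : ℕ) < α (e i).1 then some (e i).1 else none, ?_⟩
  rw [Equiv.prod_comp e (fun q : n × Fin B =>
    (if (q.2 : ℕ) < α q.1 then some q.1 else none : Option n).elim v0 v), Fintype.prod_prod_type]
  unfold pr
  refine Finset.prod_congr rfl fun k _ => ?_
  have h1 : ∀ b : Fin B, (if (b : ℕ) < α k then some k else none : Option n).elim v0 v =
      if (b : ℕ) < α k then v k else v0 := fun b => by split_ifs <;> rfl
  simp_rw [h1]
  rw [Finset.prod_ite, Finset.prod_const, Finset.prod_const]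
  have hk : (α k : ℕ) ≤ B := Nat.lt_succ_iff.1 (α k).2
  have h2 : (Finset.univ.filter fun b : Fin B => (b : ℕ) < α k).card = α k := by
    rw [Fin.card_filter_val_lt, min_eq_right hk]
  have h3 : (Finset.univ.filter fun b : Fin B => ¬(b : ℕ) < α k).card = B - α k := by
    have := Finset.card_filter_add_card_filter_not (s := (Finset.univ : Finset (Fin B)))
      (fun b => (b : ℕ) < α k)
    rw [h2, Finset.card_univ, Fintype.card_fin] at this
    omega
  rw [h2, h3]

end

/-- Package GROW. -/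
theorem grow : S_GROW := by
  classical
  intro K _ _ _ l R hR P t ht a v0 v hv0 hv h0 hk hJ
  let n := Fintype.card (Fr R)
  let A := ∑ j, a j
  obtain ⟨B, hB, hlt⟩ := card_lt n A
  have hn : Fintype.card (Option (Fr R)) = n + 1 := Fintype.card_option
  let M := Fintype.card (Option (Fr R)) * B
  have hM : M = (n + 1) * B := by rw [← hn]
  refine ⟨M, by rw [hM]; positivity, ?_⟩
  obtain ⟨V0, hV0⟩ := exists_lift P h0
  choose V hV using fun k => exists_lift P (hk k)
  have hcard : Nat.card (Ex R (M • a)) < Fintype.card (Option (Fr R) → Fin (B + 1)) := by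
    rw [Fintype.card_fun, Fintype.card_fin, hn]
    refine lt_of_le_of_lt (card_Ex (D := (n + 1) * B * A) fun j => ?_) hlt
    rw [Pi.smul_apply, smul_eq_mul, hM]
    exact Nat.mul_le_mul_left _ (Finset.single_le_sum (f := a) (fun _ _ => Nat.zero_le _)
      (Finset.mem_univ j))
  have : Fintype (Ex R (M • a)) := Fintype.ofFinite _
  let L : ((Option (Fr R) → Fin (B + 1)) → ℂ) →ₗ[ℂ] (Ex R (M • a) → ℂ) :=
    { toFun := fun c β => ∑ α, c α * theta P (coeff β.1 (pr B V0 V α))
      map_add' := fun c c' => by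
        funext β
        simp only [Pi.add_apply, add_mul, Finset.sum_add_distrib]
      map_smul' := fun z c => by
        funext β
        simp only [Pi.smul_apply, smul_eq_mul, RingHom.id_apply, mul_assoc, Finset.mul_sum] }
  have hL : LinearMap.ker L ≠ ⊥ := by
    apply LinearMap.ker_ne_bot_of_finrank_lt
    rw [Module.finrank_fintype_fun_eq_card, Module.finrank_fintype_fun_eq_card,
      ← Nat.card_eq_fintype_card]
    exact hcard
  obtain ⟨c, hc, hc0⟩ := (Submodule.ne_bot_iff _).1 hL
  refine ⟨∑ α, C (algebraMap ℂ K (c α)) * pr B v0 v α, ?_, ?_, ?_, ?_⟩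
  · intro h
    exact hc0 (indep P ht B h0 hk hJ c h)
  · rw [isMh_iff]
    refine IsWeightedHomogeneous.sum Finset.univ _ _ fun α _ => ?_
    rw [← smul_eq_C_mul]
    exact (weightedHomogeneousSubmodule K (wt R) (M • a)).smul_mem _
      (isMh_iff.1 (pr_mh hv0 hv α))
  · intro β
    by_cases hβ : ∀ j, ∑ i, β ⟨j, i⟩ = (M • a) j
    · have h1 : coeff β (∑ α, C (algebraMap ℂ K (c α)) * pr B v0 v α) =
          io P (∑ α, cst P (c α) * coeff β (pr B V0 V α)) := by
        rw [coeff_sum, map_sum]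
        refine Finset.sum_congr rfl fun α _ => ?_
        rw [coeff_C_mul, map_mul, io_cst, ← coeff_map, map_pr, hV0]
        simp_rw [hV]
      rw [h1, ← theta_eq_zero, map_sum]
      have h2 : L c = 0 := hc
      have h3 := congrFun h2 ⟨β, hβ⟩
      change ∑ α, c α * theta P (coeff β (pr B V0 V α)) = 0 at h3
      rw [← h3]
      refine Finset.sum_congr rfl fun α _ => ?_
      rw [map_mul, theta_cst]
    · left
      rw [coeff_sum]
      refine Finset.sum_eq_zero fun α _ => ?_
      rw [coeff_C_mul]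
      by_contra h
      exact hβ (pr_mh hv0 hv α β (right_ne_zero_of_mul h))
  · refine Submodule.sum_mem _ fun α _ => ?_
    have h1 : C (algebraMap ℂ K (c α)) * pr B v0 v α = c α • pr B v0 v α := by
      rw [← smul_eq_C_mul, algebraMap_smul]
    rw [h1]
    exact Submodule.smul_mem _ _ (Submodule.subset_span (pr_word B v0 v α))

end Pool.Agent.Helper43.PP

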